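import Pool.Agent.FIO.Final

set_option autoImplicit false

namespace Pool.Agent.Results.MP_1dd539_al.CentralRoots

open Pool.Agent.FIO

universe u

theorem result (F : Subfield ℂ) (C : ∀ (G : Type u) [Group G], Prop) (hC : GoodClass C) :
    (∀ p : ℕ, p.Prime → List.TFAE [
      ∀ (G : Type u) [Group G] (H : Subgroup G), C G → H.FiniteIndex → AtP F p H → AtP F p G,
      ∀ (Q : Type u) [Group Q] (N : Subgroup Q), C Q → IrrPair N p → AtP F p N → AtP F p Q,
      ∀ (G : Type u) [Group G] (H : Subgroup G) (w : G), C G → IrrRoot H p w → AtP F p H →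
        AtP F p G]) ∧
    ((∀ p : ℕ, p.Prime → ∀ (G : Type u) [Group G] (H : Subgroup G) (w : G), C G →
        IrrRoot H p w → AtP F p H → AtP F p G) →
      ∀ (G : Type u) [Group G] (H : Subgroup G), C G → H.FiniteIndex → Atiyah F H →
        Atiyah F G) ∧
    List.TFAE [
      ∀ (G : Type u) [Group G] (H : Subgroup G), C G → H.Normal → H.FiniteIndex →
        Atiyah F H → Atiyah F G,
      ∀ (Q : Type u) [Group Q] (N : Subgroup Q) (p : ℕ), C Q → IrrPair N p → Atiyah F N →
        Atiyah F Q,
      ∀ (G : Type u) [Group G] (H : Subgroup G) (p : ℕ) (w : G), C G → IrrRoot H p w →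
        Atiyah F H → Atiyah F G] ∧
    ((∀ (G : Type u) [Group G], C G → TorFree G) →
      ((∀ (G : Type u) [Group G] (H : Subgroup G), C G → H.FiniteIndex → Atiyah F H →
          Atiyah F G) ↔
        (∀ (G : Type u) [Group G] (H : Subgroup G) (p : ℕ) (w : G), C G → IrrRoot H p w →
          Atiyah F H → Atiyah F G))) :=
  ⟨fun p hp => tfae_finP F p hp hC, finQ F hC, tfae_finN F hC, fun hT => finB F hC hT⟩

end Pool.Agent.Results.MP_1dd539_al.CentralRoots
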