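import Pool.Agent.FIO.Y3

set_option autoImplicit false

namespace Pool.Agent.Results.MP_1dd539_al.StableOvergroups

open Pool.Agent.FIO Monoid

universe u

theorem result (F : Subfield ℂ) :
    (∀ (G : Type u) [Group G] (H : Subgroup G) (K : Type) [Group K] (D : Subgroup K) (r : ℕ),
      H.FiniteIndex → Finite K → H.index ∣ D.index → lcmFin H ∣ Nat.card D →
      (∀ R : ℕ, Atiyah F (Coprod (Coprod H (FreeGroup (Fin R))) D)) →
      Atiyah F (Coprod (Coprod G (FreeGroup (Fin r))) K)) ∧
    (∀ (G : Type u) [Group G] (H : Subgroup G) (M₀ : ℕ), H.FiniteIndex → StAt F M₀ H →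
      StAt F (H.index * Nat.lcm M₀ (lcmFin H)) G) ∧
    (∀ (G : Type u) [Group G] (K : Subgroup G) (M₀ : ℕ), StAt F M₀ G →
      StAt F (Nat.lcm M₀ (lcmFin G)) K) ∧
    (∀ (G : Type u) [Group G] (M₀ : ℕ), M₀ ∣ lcmFin G → StAt F M₀ G → Atiyah F G) ∧
    (∀ C : ∀ (H : Type u) [Group H], Prop,
      (∀ (H : Type u) [Group H] (r M : ℕ), C H → 0 < M → lcmFin H ∣ M → Atiyah F H →
        Atiyah F (Coprod (Coprod H (FreeGroup (Fin r))) (Multiplicative (ZMod M)))) →
      List.TFAE [
        ∀ (G : Type u) [Group G] (H : Subgroup G), C H → H.FiniteIndex → Atiyah F H →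
          Atiyah F G,
        ∀ (G : Type u) [Group G] (H : Subgroup G), C H → H.FiniteIndex → Atiyah F H →
          StAt F (H.index * lcmFin H) G → Atiyah F G,
        ∀ (G : Type u) [Group G] (H : Subgroup G) (M : ℕ), C H → H.FiniteIndex → Atiyah F H →
          0 < M → Atiyah F (Coprod G (Multiplicative (ZMod M))) → Atiyah F G]) :=
  ⟨fun _ _ H _ _ D r hf hK hn hD h =>
      have := hf
      have := hK
      free_general H D hn hD r h,
    fun _ _ H _ hf h =>
      have := hf
      h.overgroup H,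
    fun _ _ K _ h => h.sub K,
    fun _ _ _ hd h => h.atiyah hd,
    fun C hC => free_tfae F C hC⟩

end Pool.Agent.Results.MP_1dd539_al.StableOvergroups
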