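import Pool.Agent.FIO.W8

set_option autoImplicit false

namespace Pool.Agent.Results.MP_1dd539_al.WreathHeredity

open Pool.Agent.FIO

universe u

theorem result (F : Subfield ℂ) (C : ∀ (G : Type u) [Group G], Prop) (hC : PowClass C) :
    (∀ (H P : Type u) [Group H] [Group P] (d : ℕ), Finite P → Hered F H →
      Atiyah F (Fin d → RegularWreathProduct H P)) ∧
    List.TFAE [
      ∀ (G : Type u) [Group G] (H : Subgroup G), C G → H.FiniteIndex → Hered F H → Atiyah F G,
      ∀ (G : Type u) [Group G] (H : Subgroup G), C G → H.FiniteIndex → Hered F H → Hered F G,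
      ∀ (H P : Type u) [Group H] [Group P] (K : Subgroup (RegularWreathProduct H P)), Finite P →
        Hered F H → C K → Atiyah F K,
      ∀ (H P : Type u) [Group H] [Group P] (d : ℕ)
        (K : Subgroup (Fin d → RegularWreathProduct H P)), (Nat.card P).Prime → C H →
          Hered F H → C K → Atiyah F K] ∧
    ((∀ (G : Type u) [Group G] (K : Subgroup G), C K → Atiyah F G → Atiyah F K) →
      (∀ (G : Type u) [Group G] (N : Subgroup G) [N.Normal], C G → N.FiniteIndex →
        (∀ p k : ℕ, p.Prime → p ^ k ∣ N.index → Atiyah F (Fin (p ^ k) → N)) → Atiyah F G) ∧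
      (∀ (G : Type u) [Group G] (H : Subgroup G), C G → H.FiniteIndex →
        (∀ d : ℕ, Atiyah F (Fin d → H)) → Atiyah F G)) ∧
    (∀ (H : Type u) [Group H], TorFree H → (Hered F H ↔ ∀ d : ℕ, Atiyah F (Fin d → H))) :=
  ⟨fun _ _ _ _ d _ hH => hH.wreath_pow d, tfae_wreath_prime F hC, wr_closed hC,
    fun _ _ hH => hered_torFree hH⟩

end Pool.Agent.Results.MP_1dd539_al.WreathHeredity
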